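import Pool.Agent.Q317.TJ.Core

/-!
# The totalizing jump never distributes over the meet of two incomparable problems
-/

set_option autoImplicit false

namespace Pool.Agent.Results.MP_1d3aa8_lc.StrictForIncomparable

open Pool.Agent.H190R3.Wei Pool.Agent.Q317.TJ

lemma meet_le_left (f g : Problem) : WLe (meet f g) f := by
  refine ⟨ev, fun σ => 0 :: od σ, isMachine_ev, isMachine_cons 0 isMachine_od, ?_⟩
  rintro r ⟨w, x, z, rfl, hx, hz, -⟩
  exact ⟨x, maps_ev x z, hx, fun a ha => ⟨tag 0 a, ⟨x, z, rfl, hx, hz, Or.inl ⟨a, ha, rfl⟩⟩,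
    maps_cons 0 (maps_od _ _)⟩⟩

lemma meet_le_right (f g : Problem) : WLe (meet f g) g := by
  refine ⟨od, fun σ => 1 :: od σ, isMachine_od, isMachine_cons 1 isMachine_od, ?_⟩
  rintro r ⟨w, x, z, rfl, hx, hz, -⟩
  exact ⟨z, maps_od x z, hz, fun b hb => ⟨tag 1 b, ⟨x, z, rfl, hx, hz, Or.inr ⟨b, hb, rfl⟩⟩,
    maps_cons 1 (maps_od _ _)⟩⟩

lemma le_meet {h f g : Problem} (h1 : WLe h f) (h2 : WLe h g) : WLe h (meet f g) := by
  refine WLe.trans ?_ (meet_mono h1 h2)
  have mt : IsMachine (fun σ => (od σ).tail) := isMachine_tail isMachine_od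
  refine ⟨fun σ => pr σ σ, fun σ => (od σ).tail, isMachine_id.pr isMachine_id, mt, ?_⟩
  intro x hx
  refine ⟨pair x x, Maps.pr isMachine_id isMachine_id (maps_id x) (maps_id x), ?_, ?_⟩
  · obtain ⟨a, ha⟩ := hx
    exact ⟨_, x, x, rfl, ⟨a, ha⟩, ⟨a, ha⟩, Or.inl ⟨a, ha, rfl⟩⟩
  · rintro w ⟨x1, x2, he, -, -, hw⟩
    obtain ⟨rfl, rfl⟩ := pair_inj he
    rcases hw with ⟨a, ha, rfl⟩ | ⟨a, ha, rfl⟩
    · exact ⟨a, ha, maps_tail (maps_od _ _)⟩
    · exact ⟨a, ha, maps_tail (maps_od _ _)⟩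

lemma totJump_mono {f g J : Problem} (h : WLe g f) (hJ : IsTotJump J f) : WLe (tot g) J :=
  (tot_le_univ h).trans (hJ.largest _ (univ_le f) (le_univ f))

/-- Every problem has a totalizing jump, and for Weihrauch incomparable problems `f` and `g` the
totalizing jump of `f ⊓ g` is strictly below the meet of the totalizing jumps of `f` and `g`. -/
theorem result : (∀ f : Problem, ∃ J, IsTotJump J f) ∧
    ∀ f g Jf Jg Jm : Problem, IsTotJump Jf f → IsTotJump Jg g → IsTotJump Jm (meet f g) →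
      ¬ WLe f g → ¬ WLe g f → WLe Jm (meet Jf Jg) ∧ ¬ WLe (meet Jf Jg) Jm := by
  refine ⟨fun f => ⟨_, exists_totJump f⟩, ?_⟩
  intro f g Jf Jg Jm hf hg hm hfg hgf
  obtain ⟨h0, h1, -, h3, -⟩ := hm.attained
  refine ⟨le_meet (h3.trans (totJump_mono (h1.trans (meet_le_left f g)) hf))
    (h3.trans (totJump_mono (h1.trans (meet_le_right f g)) hg)), fun hred => ?_⟩
  have k1 : WLe (tot (D false f)) Jf := hf.largest _ (D_le false f) (le_D false f)
  have k2 : WLe (tot (D true g)) Jg := hg.largest _ (D_le true g) (le_D true g)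
  obtain ⟨s, hs⟩ := core (fun s => bif s then g else f) (h0 := h0) h1
    (((meet_mono k1 k2).trans hred).trans h3)
  cases s
  · exact hfg hs
  · exact hgf hs

end Pool.Agent.Results.MP_1d3aa8_lc.StrictForIncomparable
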